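import Pool.Agent.N348.ND.FC

/-!
Blocks of a good approximation on which the rank lemma applies.
-/

set_option autoImplicit false

open scoped Topology Matrix.Norms.L2Operator

noncomputable section

namespace Pool.Agent.N348.ND

open Pool.Agent.N299 Pool.Agent.N299.ND

/-- the conclusion of the rank lemma -/
def RKc (N : ℕ) (C κ δ κ' γ : ℝ) : Prop :=
  ∀ (n : ℕ) (k T U p : M n) (β : Fin N → Fin 4 → M n) (A : Fin N → Bool → M n),
  Pos k → ‖k‖ ≤ 1 → Pos T → ‖T‖ ≤ 1 → Pos U → ‖U‖ ≤ 1 → Pos (T - (κ' : ℂ) • U) →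
  Pos (k + (δ : ℂ) • 1 - T) → star p = p → p * p = p → p * T = T * p → ‖T * (1 - p)‖ ≤ γ →
  (∀ x, ∃ c : ℂ, p * x * p = c • p) →
  (∀ t i, ‖β t i‖ ≤ C ∧ ‖U * β t i - k * β t i‖ ≤ δ ∧ ‖β t i * U - β t i * k‖ ≤ δ ∧
    ‖k * β t i - β t i * k‖ ≤ δ) →
  (∀ t, ‖β t 0 * β t 1 * β t 2 * β t 3 - k ^ 3 * A t false‖ ≤ δ ∧
    ‖β t 0 * β t 2 * β t 1 * β t 3 - k ^ 3 * A t true‖ ≤ δ) →
  ‖T - ∑ t, (A t false - A t true)‖ ≤ κ → ‖T‖ ^ 9 ≤ 2 * κ

/-- products of four elements -/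
theorem four {R : Type} [CStarAlgebra R] {k b0 b1 b2 b3 c1 c2 c3 : R} {C η : ℝ} (hC : 1 ≤ C)
    (hη : 0 ≤ η) (hk : ‖k‖ ≤ 1) (h2 : ‖b2‖ ≤ C) (h3 : ‖b3‖ ≤ C) (e1 : ‖b0 * b1 - k * c1‖ ≤ η)
    (e2 : ‖c1 * b2 - k * c2‖ ≤ η) (e3 : ‖c2 * b3 - k * c3‖ ≤ η) :
    ‖b0 * b1 * b2 * b3 - k ^ 3 * c3‖ ≤ 3 * C ^ 2 * η := by
  have f : b0 * b1 * b2 * b3 - k ^ 3 * c3 = (b0 * b1 - k * c1) * b2 * b3 +
      k * ((c1 * b2 - k * c2) * b3) + k * (k * (c2 * b3 - k * c3)) := by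
    noncomm_ring
  rw [f]
  have g1 : ‖(b0 * b1 - k * c1) * b2 * b3‖ ≤ η * C * C :=
    (norm_mul_le _ _).trans (mul_le_mul ((norm_mul_le _ _).trans
      (mul_le_mul e1 h2 (norm_nonneg _) hη)) h3 (norm_nonneg _) (by positivity))
  have g2 : ‖k * ((c1 * b2 - k * c2) * b3)‖ ≤ η * C :=
    (norm_mul_le _ _).trans ((mul_le_of_le_one_left (norm_nonneg _) hk).trans
      ((norm_mul_le _ _).trans (mul_le_mul e2 h3 (norm_nonneg _) hη)))
  have g3 : ‖k * (k * (c2 * b3 - k * c3))‖ ≤ η :=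
    (norm_mul_le _ _).trans ((mul_le_of_le_one_left (norm_nonneg _) hk).trans
      ((norm_mul_le _ _).trans ((mul_le_of_le_one_left (norm_nonneg _) hk).trans e3)))
  have g4 : η ≤ η * C := le_mul_of_one_le_right hη hC
  have g5 : η * C ≤ η * C * C := le_mul_of_one_le_right (by positivity) hC
  refine (norm_add₃_le).trans ?_
  nlinarith

theorem rkb {B : Type} [CStarAlgebra B] {I : Submodule ℂ B} (hI : Idl I) {m : ℕ} {F : Finset B}
    {d : ℝ} {e : B} {k : ℕ} {n : Fin k → ℕ} {c : Fin k → Fin (m + 1)} {ψ : ∀ j, B →ₗ[ℂ] M (n j)}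
    {φ : ∀ j, M (n j) →ₗ[ℂ] B} (hA : APX I m F d e k n c ψ φ)
    {N : ℕ} {β : Fin N → Fin 4 → B} {a u w : B} {κ' κ κ₁ C δ γ : ℝ} (hκ₁ : 0 < κ₁)
    (hFI : ∀ x ∈ F, x ∈ I) (HRK : RKc N C κ δ κ' γ)
    (ha : Pos a) (ha1 : ‖a‖ ≤ 1) (haF : a ∈ F) (hu : Pos u) (hu1 : ‖u‖ ≤ 1) (huF : u ∈ F)
    (hwI : w ∈ I) (haw : a - (κ' : ℂ) • u = star w * w)
    (hβF : ∀ t i, β t i ∈ F ∧ u * β t i ∈ F ∧ β t i * u ∈ F)
    (hβF2 : ∀ t, β t 0 * β t 1 ∈ F ∧ β t 0 * β t 1 * β t 2 ∈ F ∧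
      β t 0 * β t 1 * β t 2 * β t 3 ∈ F ∧
      β t 0 * β t 2 ∈ F ∧ β t 0 * β t 2 * β t 1 ∈ F ∧ β t 0 * β t 2 * β t 1 * β t 3 ∈ F)
    (hβC : ∀ t i, ‖β t i‖ ≤ C) (hC : 1 ≤ C)
    (huβ : ∀ t i, ‖u * β t i - β t i‖ ≤ δ / 4 ∧ ‖β t i * u - β t i‖ ≤ δ / 4)
    (hd : d ≤ κ₁ ^ 4 * (δ / (12 * C ^ 2))) (hdδ : d ≤ δ) (hδ : 0 < δ)
    (hcert : ‖a - ∑ t, β t 0 * (β t 1 * β t 2 - β t 2 * β t 1) * β t 3‖ ≤ κ)
    (hκ : 2 * κ < κ₁ ^ 9)
    (j : Fin k) (h1 : κ₁ < ‖φ j 1‖) (h2 : κ₁ < ‖ψ j a‖) (p : M (n j))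
    (p1 : star p = p) (p2 : p * p = p) (p3 : p * ψ j a = ψ j a * p)
    (p4 : ‖ψ j a * (1 - p)‖ ≤ γ) (p5 : ∀ x, ∃ c : ℂ, p * x * p = c • p) : False := by
  have hb := hA.fam.blk j
  have hes : star e = e := hA.epos.sa
  have he1 : ‖e‖ ≤ 1 := pos_le_one hA.epos hA.ele
  have hee : e * e ∈ I := hI.mulL _ hA.eI _
  have hη0 : 0 < δ / (12 * C ^ 2) := by positivity
  obtain ⟨η, hη⟩ : ∃ η, η = δ / (12 * C ^ 2) := ⟨_, rfl⟩
  rw [← hη] at hd hη0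
  have hη1 : 3 * C ^ 2 * η = δ / 4 := by
    rw [hη]
    field_simp
    ring
  have hC2 : 1 ≤ C ^ 2 := one_le_pow₀ hC
  have hη2 : 3 * η ≤ δ / 4 := by nlinarith
  obtain ⟨K, hK⟩ : ∃ K, K = ψ j (e * e) := ⟨_, rfl⟩
  have hK1 : ‖K‖ ≤ 1 := by
    rw [hK]
    exact (hb.ψn _ hee).trans ((norm_mul_le _ _).trans (mul_le_one₀ he1 (norm_nonneg _) he1))
  have haoz : ∀ x ∈ F, ∀ y ∈ F, x * y ∈ F →
      ‖ψ j x * ψ j y - K * ψ j (x * y)‖ ≤ η ∧ ‖ψ j x * ψ j y - ψ j (x * y) * K‖ ≤ η := by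
    intro x hx y hy hxy
    have h3 := hA.aoz j x hx y hy hxy
    rw [← hK] at h3
    have h4 : κ₁ ^ 4 ≤ ‖φ j 1‖ ^ 4 := pow_le_pow_left₀ hκ₁.le h1.le 4
    have h5 : 0 < κ₁ ^ 4 := by positivity
    constructor
    · have h6 := mul_le_mul_of_nonneg_right h4 (norm_nonneg (ψ j x * ψ j y - K * ψ j (x * y)))
      exact le_of_mul_le_mul_left (h6.trans (h3.1.trans hd)) h5
    · have h6 := mul_le_mul_of_nonneg_right h4 (norm_nonneg (ψ j x * ψ j y - ψ j (x * y) * K))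
      exact le_of_mul_le_mul_left (h6.trans (h3.2.trans hd)) h5
  have hψd : ∀ x ∈ I, ∀ y ∈ I, ∀ s, ‖x - y‖ ≤ s → ‖ψ j x - ψ j y‖ ≤ s := by
    intro x hx y hy s hs
    rw [← map_sub]
    exact (hb.ψn _ (I.sub_mem hx hy)).trans hs
  have hKl : ∀ x : M (n j), ‖K * x‖ ≤ ‖x‖ := fun x =>
    (norm_mul_le _ _).trans (mul_le_of_le_one_left (norm_nonneg _) hK1)
  have hKr : ∀ x : M (n j), ‖x * K‖ ≤ ‖x‖ := fun x =>
    (norm_mul_le _ _).trans (mul_le_of_le_one_right (norm_nonneg _) hK1)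
  have hmain := HRK (n j) K (ψ j a) (ψ j u) p (fun t i => ψ j (β t i))
    (fun t s => cond s (ψ j (β t 0 * β t 2 * β t 1 * β t 3))
      (ψ j (β t 0 * β t 1 * β t 2 * β t 3)))
    (by
      rw [hK]
      nth_rewrite 1 [← hes]
      exact cpi_pos hb.ψcp hA.eI)
    hK1 (blk_pos hI hb.ψcp (hFI _ haF) ha) ((hb.ψn _ (hFI _ haF)).trans ha1)
    (blk_pos hI hb.ψcp (hFI _ huF) hu) ((hb.ψn _ (hFI _ huF)).trans hu1)
    (by
      rw [← map_smul, ← map_sub, haw]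
      exact cpi_pos hb.ψcp hwI)
    (by
      have h3 := hA.ple a ha (pos_of_norm_le ha ha1) haF j
      rw [← hK] at h3
      have h4 : Pos (((δ - d : ℝ) : ℂ) • (1 : M (n j))) := by
        refine Pos.smul ?_ (by linarith)
        have := pos_star_mul (1 : M (n j))
        rwa [star_one, one_mul] at this
      have h5 := h3.add h4
      have h6 : K + (d : ℂ) • 1 - ψ j a + ((δ - d : ℝ) : ℂ) • 1 = K + (δ : ℂ) • 1 - ψ j a := by
        push_cast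
        rw [sub_smul]
        abel
      rwa [h6] at h5)
    p1 p2 p3 p4 p5
    (by
      intro t i
      obtain ⟨f1, f2, f3⟩ := hβF t i
      obtain ⟨g1, g2⟩ := haoz u huF (β t i) f1 f2
      obtain ⟨g3, g4⟩ := haoz (β t i) f1 u huF f3
      obtain ⟨l1, l2⟩ := huβ t i
      have l3 := hψd _ (hFI _ f2) _ (hFI _ f1) _ l1
      have l4 := hψd _ (hFI _ f3) _ (hFI _ f1) _ l2
      refine ⟨(hb.ψn _ (hFI _ f1)).trans (hβC t i), ?_, ?_, ?_⟩
      · have s1 : ψ j u * ψ j (β t i) - K * ψ j (β t i) =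
            (ψ j u * ψ j (β t i) - K * ψ j (u * β t i)) +
              K * (ψ j (u * β t i) - ψ j (β t i)) := by
          rw [mul_sub]
          abel
        rw [s1]
        refine (norm_add_le _ _).trans ?_
        have := hKl (ψ j (u * β t i) - ψ j (β t i))
        linarith
      · have s1 : ψ j (β t i) * ψ j u - ψ j (β t i) * K =
            (ψ j (β t i) * ψ j u - ψ j (β t i * u) * K) +
              (ψ j (β t i * u) - ψ j (β t i)) * K := by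
          rw [sub_mul]
          abel
        rw [s1]
        refine (norm_add_le _ _).trans ?_
        have := hKr (ψ j (β t i * u) - ψ j (β t i))
        linarith
      · have s1 : K * ψ j (β t i) - ψ j (β t i) * K =
            (ψ j u * ψ j (β t i) - ψ j (u * β t i) * K) -
            (ψ j u * ψ j (β t i) - K * ψ j (u * β t i)) -
              K * (ψ j (u * β t i) - ψ j (β t i)) + (ψ j (u * β t i) - ψ j (β t i)) * K := by
          rw [sub_mul, mul_sub]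
          abel
        rw [s1]
        refine (norm_add_le _ _).trans ?_
        have t1 := norm_sub_le ((ψ j u * ψ j (β t i) - ψ j (u * β t i) * K) -
            (ψ j u * ψ j (β t i) - K * ψ j (u * β t i))) (K * (ψ j (u * β t i) - ψ j (β t i)))
        have t2 := norm_sub_le (ψ j u * ψ j (β t i) - ψ j (u * β t i) * K)
            (ψ j u * ψ j (β t i) - K * ψ j (u * β t i))
        have t3 := hKl (ψ j (u * β t i) - ψ j (β t i))
        have t4 := hKr (ψ j (u * β t i) - ψ j (β t i))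
        linarith)
    (by
      intro t
      obtain ⟨q1, q2, q3, q4, q5, q6⟩ := hβF2 t
      have hn : ∀ i, ‖ψ j (β t i)‖ ≤ C := fun i =>
        (hb.ψn _ (hFI _ (hβF t i).1)).trans (hβC t i)
      constructor
      · refine (four hC hη0.le hK1 (hn 2) (hn 3) (haoz _ (hβF t 0).1 _ (hβF t 1).1 q1).1
          (haoz _ q1 _ (hβF t 2).1 q2).1 (haoz _ q2 _ (hβF t 3).1 q3).1).trans ?_
        linarith
      · refine (four hC hη0.le hK1 (hn 1) (hn 3) (haoz _ (hβF t 0).1 _ (hβF t 2).1 q4).1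
          (haoz _ q4 _ (hβF t 1).1 q5).1 (haoz _ q5 _ (hβF t 3).1 q6).1).trans ?_
        linarith)
    (by
      have s1 : ψ j a - ∑ t, (cond false (ψ j (β t 0 * β t 2 * β t 1 * β t 3))
          (ψ j (β t 0 * β t 1 * β t 2 * β t 3)) - cond true (ψ j (β t 0 * β t 2 * β t 1 * β t 3))
          (ψ j (β t 0 * β t 1 * β t 2 * β t 3))) =
          ψ j (a - ∑ t, β t 0 * (β t 1 * β t 2 - β t 2 * β t 1) * β t 3) := by
        rw [map_sub, map_sum]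
        congr 1
        refine Finset.sum_congr rfl fun t _ => ?_
        rw [cond_false, cond_true, ← map_sub]
        congr 1
        noncomm_ring
      rw [s1]
      refine (hb.ψn _ (I.sub_mem (hFI _ haF) (I.sum_mem fun t _ => ?_))).trans hcert
      exact hI.mulL _ (hFI _ (hβF t 3).1) _)
  have h3 : κ₁ ^ 9 < ‖ψ j a‖ ^ 9 := pow_lt_pow_left₀ h2 hκ₁.le (by norm_num)
  linarith

end Pool.Agent.N348.ND
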