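import Pool.Agent.N348.ND.Blk
import Pool.Agent.N348.ND.RKB

/-!
Nilpotent triples in algebras of finite nuclear dimension without scattered quotients.
-/

set_option autoImplicit false

open scoped Topology Matrix.Norms.L2Operator

noncomputable section

namespace Pool.Agent.N348.ND

open Pool.Agent.N299 Pool.Agent.N299.ND

theorem exists_F {B : Type} [CStarAlgebra B] {I : Submodule ℂ B} (hI : Idl I) {N : ℕ} {a u : B}
    (β : Fin N → Fin 4 → B) (ha : a ∈ I) (hu : u ∈ I) (hβ : ∀ t i, β t i ∈ I) :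
    ∃ F : Finset B, (∀ x ∈ F, x ∈ I) ∧ a ∈ F ∧ u ∈ F ∧
      (∀ t i, β t i ∈ F ∧ u * β t i ∈ F ∧ β t i * u ∈ F) ∧
      ∀ t, β t 0 * β t 1 ∈ F ∧ β t 0 * β t 1 * β t 2 ∈ F ∧
        β t 0 * β t 1 * β t 2 * β t 3 ∈ F ∧
        β t 0 * β t 2 ∈ F ∧ β t 0 * β t 2 * β t 1 ∈ F ∧ β t 0 * β t 2 * β t 1 * β t 3 ∈ F := by
  classical
  refine ⟨({a, u} : Finset B) ∪ (Finset.univ.biUnion fun t => Finset.univ.biUnion fun i =>
    {β t i, u * β t i, β t i * u}) ∪ Finset.univ.biUnion fun t =>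
      {β t 0 * β t 1, β t 0 * β t 1 * β t 2, β t 0 * β t 1 * β t 2 * β t 3, β t 0 * β t 2,
        β t 0 * β t 2 * β t 1, β t 0 * β t 2 * β t 1 * β t 3}, ?_, ?_, ?_, ?_, ?_⟩
  · intro x hx
    simp only [Finset.mem_union, Finset.mem_biUnion, Finset.mem_univ, true_and,
      Finset.mem_insert, Finset.mem_singleton] at hx
    rcases hx with ((rfl | rfl) | ⟨t, i, rfl | rfl | rfl⟩) | ⟨t, rfl | rfl | rfl | rfl | rfl | rfl⟩
    · exact ha
    · exact hu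
    · exact hβ t i
    · exact hI.mulL _ (hβ t i) _
    · exact hI.mulR _ (hβ t i) _
    · exact hI.mulL _ (hβ t 1) _
    · exact hI.mulL _ (hβ t 2) _
    · exact hI.mulL _ (hβ t 3) _
    · exact hI.mulL _ (hβ t 2) _
    · exact hI.mulL _ (hβ t 1) _
    · exact hI.mulL _ (hβ t 3) _
  · simp
  · simp
  · intro t i
    refine ⟨?_, ?_, ?_⟩
    all_goals
      refine Finset.mem_union_left _ (Finset.mem_union_right _ (Finset.mem_biUnion.2
        ⟨t, Finset.mem_univ _, Finset.mem_biUnion.2 ⟨i, Finset.mem_univ _, ?_⟩⟩))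
      simp
  · intro t
    refine ⟨?_, ?_, ?_, ?_, ?_, ?_⟩
    all_goals
      refine Finset.mem_union_right _ (Finset.mem_biUnion.2 ⟨t, Finset.mem_univ _, ?_⟩)
      simp

theorem P_bound {B : Type} [CStarAlgebra B] {k : ℕ} {n : Fin k → ℕ}
    {ψ : ∀ j, B →ₗ[ℂ] M (n j)} {φ : ∀ j, M (n j) →ₗ[ℂ] B} {a : B} {γ d κ₂ : ℝ} (hγ : 0 < γ)
    (hd : 0 ≤ d) (ha : Pos a) (haa : ‖tot ψ φ Finset.univ a - a‖ ≤ d) (S : Finset (Fin k))
    {P : ∀ j, M (n j)} (hPT : ∀ j, Pos (ψ j a - (γ : ℂ) • P j)) (hφ : ∀ j, OZ (φ j))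
    (hT : ∀ j, Pos (ψ j a)) {q : B} (hq : star q = q) (hq1 : Pos (1 - q * q))
    (hqa : Pos ((κ₂ : ℂ) • 1 - q * a * q)) :
    Pos ((((κ₂ + d) / γ : ℝ) : ℂ) • 1 - q * (∑ j ∈ S, φ j (P j)) * q) := by
  classical
  have htot : tot ψ φ Finset.univ a = ∑ j, φ j (ψ j a) := by
    rw [tot, LinearMap.sum_apply]
    rfl
  rw [htot] at haa
  have hA : Pos (∑ j, φ j (ψ j a)) := Pos.sum _ _ fun j _ => (hφ j).pos _ (hT j)
  have p1 : Pos ((a - ∑ j, φ j (ψ j a)) + (d : ℂ) • (1 : B)) := by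
    refine pos_perturb (x := 0) pos_zero ?_ ?_
    · rw [star_sub, ha.sa, hA.sa]
    · rw [zero_sub, neg_sub]
      exact haa
  have p2 : Pos (∑ j ∈ Sᶜ, φ j (ψ j a)) := Pos.sum _ _ fun j _ => (hφ j).pos _ (hT j)
  have p3 : Pos (∑ j ∈ S, φ j (ψ j a - (γ : ℂ) • P j)) :=
    Pos.sum _ _ fun j _ => (hφ j).pos _ (hPT j)
  have p4 := (p1.add p2).add p3
  have e1 : (a - ∑ j, φ j (ψ j a)) + (d : ℂ) • (1 : B) + ∑ j ∈ Sᶜ, φ j (ψ j a) +
      ∑ j ∈ S, φ j (ψ j a - (γ : ℂ) • P j) =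
      a + (d : ℂ) • (1 : B) - (γ : ℂ) • ∑ j ∈ S, φ j (P j) := by
    rw [← Finset.sum_add_sum_compl S (fun j => φ j (ψ j a))]
    have e2 : ∑ j ∈ S, φ j (ψ j a - (γ : ℂ) • P j) =
        ∑ j ∈ S, φ j (ψ j a) - (γ : ℂ) • ∑ j ∈ S, φ j (P j) := by
      rw [Finset.smul_sum, ← Finset.sum_sub_distrib]
      refine Finset.sum_congr rfl fun j _ => ?_
      rw [map_sub, map_smul]
    rw [e2]
    abel
  rw [e1] at p4
  have p5 := p4.conj q
  rw [hq] at p5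
  have p6 := (p5.add hqa).add (hq1.smul hd)
  have p7 := p6.smul (inv_nonneg.2 hγ.le)
  have e3 : ((γ⁻¹ : ℝ) : ℂ) • (q * (a + (d : ℂ) • (1 : B) - (γ : ℂ) • ∑ j ∈ S, φ j (P j)) * q +
      ((κ₂ : ℂ) • 1 - q * a * q) + (d : ℂ) • (1 - q * q)) =
      (((κ₂ + d) / γ : ℝ) : ℂ) • 1 - q * (∑ j ∈ S, φ j (P j)) * q := by
    have e4 : q * (a + (d : ℂ) • (1 : B) - (γ : ℂ) • ∑ j ∈ S, φ j (P j)) * q +
      ((κ₂ : ℂ) • 1 - q * a * q) + (d : ℂ) • (1 - q * q) =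
      ((κ₂ + d : ℝ) : ℂ) • (1 : B) - (γ : ℂ) • (q * (∑ j ∈ S, φ j (P j)) * q) := by
      push_cast
      simp only [mul_add, mul_sub, add_mul, sub_mul, mul_smul_comm, smul_mul_assoc, mul_one,
        smul_sub, add_smul]
      abel
    rw [e4, smul_sub, smul_smul, smul_smul]
    have hγ' : (γ : ℂ) ≠ 0 := by exact_mod_cast hγ.ne'
    congr 1
    · congr 1
      push_cast
      field_simp
    · push_cast
      rw [inv_mul_cancel₀ hγ', one_smul]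
  rwa [e3] at p7

theorem t_UWD (hAPX : S_APX) (hOZL : S_OZL) (hOZS : S_OZS) (hDL : S_DL) (hMAT : S_MAT)
    (hRK : S_RK) (hCERT : S_CERT) : S_UWD := by
  intro B _ I m hI hNuc hNS a haI ha ha1 ε hε
  obtain ⟨L, hL⟩ : ∃ L : ℝ, L = m + 1 := ⟨_, rfl⟩
  have hL1 : 1 ≤ L := by
    rw [hL]
    have : (0 : ℝ) ≤ m := Nat.cast_nonneg m
    linarith
  have hL0 : 0 < L := by linarith
  obtain ⟨κ₁, hκ₁⟩ : ∃ κ₁ : ℝ, κ₁ = ε / (20 * L) := ⟨_, rfl⟩
  have hκ₁0 : 0 < κ₁ := by rw [hκ₁]; positivity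
  obtain ⟨N, b, hb⟩ := hCERT B I hI hNS a haI ha ha1 (κ₁ ^ 9 / 4) (by positivity)
  -- constants
  obtain ⟨β, hβ⟩ : ∃ β : Fin N → Fin 4 → B, ∀ t i, β t i = a * b t i * a :=
    ⟨fun t i => a * b t i * a, fun _ _ => rfl⟩
  obtain ⟨C, hC1, hC⟩ : ∃ C : ℝ, 1 ≤ C ∧ ∀ t i, ‖β t i‖ ≤ C ∧ ‖b t i * a‖ ≤ C ∧
      ‖a * b t i‖ ≤ C := by
    refine ⟨1 + ∑ t, ∑ i, (‖β t i‖ + ‖b t i * a‖ + ‖a * b t i‖), ?_, fun t i => ?_⟩
    · have : 0 ≤ ∑ t, ∑ i, (‖β t i‖ + ‖b t i * a‖ + ‖a * b t i‖) := by positivity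
      linarith
    · have h1 : ‖β t i‖ + ‖b t i * a‖ + ‖a * b t i‖ ≤
          ∑ i, (‖β t i‖ + ‖b t i * a‖ + ‖a * b t i‖) :=
        Finset.single_le_sum (f := fun i => ‖β t i‖ + ‖b t i * a‖ + ‖a * b t i‖)
          (fun i _ => by positivity) (Finset.mem_univ i)
      have h2 : ∑ i, (‖β t i‖ + ‖b t i * a‖ + ‖a * b t i‖) ≤
          ∑ t, ∑ i, (‖β t i‖ + ‖b t i * a‖ + ‖a * b t i‖) :=
        Finset.single_le_sum (f := fun t => ∑ i, (‖β t i‖ + ‖b t i * a‖ + ‖a * b t i‖))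
          (fun t _ => by positivity) (Finset.mem_univ t)
      have h3 := norm_nonneg (β t i)
      have h4 := norm_nonneg (b t i * a)
      have h5 := norm_nonneg (a * b t i)
      refine ⟨?_, ?_, ?_⟩ <;> linarith
  obtain ⟨δ, hδ, hRK'⟩ := hRK N C (κ₁ ^ 9 / 4) (by positivity)
  obtain ⟨κ', hκ'⟩ : ∃ κ' : ℝ, κ' = δ / (4 * C) := ⟨_, rfl⟩
  have hκ'0 : 0 < κ' := by rw [hκ']; positivity
  have hκ'C : κ' * C = δ / 4 := by
    rw [hκ']
    field_simp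
  obtain ⟨r', v', hr', har', hu, hu', hu1, hu2, -, hw⟩ := fc ha hκ'0
  obtain ⟨u, hudef⟩ : ∃ u, u = a * r' := ⟨_, rfl⟩
  rw [← hudef] at hu hu' hu1 hu2 hw
  have huI : u ∈ I := by
    rw [hudef]
    exact hI.mulR _ haI _
  obtain ⟨γ₀, hγ₀, HRK⟩ := hRK' κ' hκ'0
  obtain ⟨γ, hγ⟩ : ∃ γ : ℝ, γ = min γ₀ (ε / (20 * L)) := ⟨_, rfl⟩
  have hγ0 : 0 < γ := by
    rw [hγ]
    exact lt_min hγ₀ (by positivity)
  have hγ1 : γ ≤ γ₀ := by rw [hγ]; exact min_le_left _ _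
  have hγ2 : γ ≤ ε / (20 * L) := by rw [hγ]; exact min_le_right _ _
  have HRK' : RKc N C (κ₁ ^ 9 / 4) δ κ' γ := by
    intro n k T U p β A q1 q2 q3 q4 q5 q6 q7 q8 q9 q10 q11 q12 q13 q14 q15 q16
    exact HRK n k T U p β A q1 q2 q3 q4 q5 q6 q7 q8 q9 q10 q11 (q12.trans hγ1) q13 q14 q15 q16
  obtain ⟨ε₁, hε₁⟩ : ∃ ε₁ : ℝ, ε₁ = ε / (100 * L) := ⟨_, rfl⟩
  have hε₁0 : 0 < ε₁ := by rw [hε₁]; positivity
  obtain ⟨R, hR⟩ : ∃ R : ℝ, R = ε / (120 * L) := ⟨_, rfl⟩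
  have hR0 : 0 < R := by rw [hR]; positivity
  obtain ⟨σ, hσ⟩ : ∃ σ : ℝ, σ = γ * (ε₁ * R) ^ 2 := ⟨_, rfl⟩
  have hσ0 : 0 < σ := by rw [hσ]; positivity
  obtain ⟨κ₂, hκ₂⟩ : ∃ κ₂ : ℝ, κ₂ = min (σ / 2) (ε / 20) := ⟨_, rfl⟩
  have hκ₂0 : 0 < κ₂ := by
    rw [hκ₂]
    exact lt_min (by positivity) (by positivity)
  have hκ₂1 : κ₂ ≤ σ / 2 := by rw [hκ₂]; exact min_le_left _ _
  have hκ₂2 : κ₂ ≤ ε / 20 := by rw [hκ₂]; exact min_le_right _ _
  obtain ⟨d, hd0, hd1, hd2, hd3, hd4⟩ : ∃ d : ℝ, 0 < d ∧ d ≤ σ / 2 ∧ d ≤ ε / 20 ∧ d ≤ δ ∧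
      d ≤ κ₁ ^ 4 * (δ / (12 * C ^ 2)) := by
    refine ⟨min (min (σ / 2) (ε / 20)) (min δ (κ₁ ^ 4 * (δ / (12 * C ^ 2)))), ?_, ?_, ?_, ?_, ?_⟩
    · exact lt_min (lt_min (by positivity) (by positivity)) (lt_min hδ (by positivity))
    · exact (min_le_left _ _).trans (min_le_left _ _)
    · exact (min_le_left _ _).trans (min_le_right _ _)
    · exact (min_le_right _ _).trans (min_le_left _ _)
    · exact (min_le_right _ _).trans (min_le_right _ _)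
  obtain ⟨r, v, hr, har, hg, hg', hg1, hg2, hg3, -⟩ := fc ha hκ₂0
  obtain ⟨g, hgdef⟩ : ∃ g, g = a * r := ⟨_, rfl⟩
  rw [← hgdef] at hg hg' hg1 hg2 hg3
  have hgn : ‖g‖ ≤ 1 := pos_le_one hg hg'
  -- the approximation
  obtain ⟨F, hFI, haF, huF, hβF, hβF2⟩ := exists_F hI β haI huI
    (fun t i => by rw [hβ]; exact hI.mulL _ haI _)
  obtain ⟨e, k, n, c, ψ, φ, hA⟩ := hAPX B I m hI hNuc F d hFI hd0
  have hφ : ∀ j, OZ (φ j) := fun j =>
    hOZL (n j) B (φ j) (hA.fam.blk j).φcp (hA.fam.blk j).φn (hA.fam.blk j).oz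
  have hTpos : ∀ j, Pos (ψ j a) := fun j => blk_pos hI (hA.fam.blk j).ψcp haI ha
  have huβ : ∀ t i, ‖u * β t i - β t i‖ ≤ δ / 4 ∧ ‖β t i * u - β t i‖ ≤ δ / 4 := by
    intro t i
    constructor
    · have e1 : u * β t i - β t i = -(((1 - u) * a) * (b t i * a)) := by
        rw [hβ]
        noncomm_ring
      rw [e1, norm_neg, ← hκ'C]
      exact (norm_mul_le _ _).trans (mul_le_mul hu1 (hC t i).2.1 (norm_nonneg _) hκ'0.le)
    · have e1 : β t i * u - β t i = -((a * b t i) * (a * (1 - u))) := by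
        rw [hβ]
        noncomm_ring
      rw [e1, norm_neg, ← hκ'C, mul_comm κ']
      exact (norm_mul_le _ _).trans (mul_le_mul (hC t i).2.2 hu2 (norm_nonneg _) (by linarith))
  have hcert : ‖a - ∑ t, β t 0 * (β t 1 * β t 2 - β t 2 * β t 1) * β t 3‖ ≤ κ₁ ^ 9 / 4 := by
    simp only [hβ]
    exact hb
  have hBD : ∀ j, ∃ (P T' : M (n j)) (X Z Y : Fin 3 → M (n j)),
      BD (ψ j a) (φ j) γ κ₁ P T' X Z Y := by
    intro j
    refine exists_bd hMAT hDL (hTpos j) (((hA.fam.blk j).ψn a haI).trans ha1) (hφ j) hγ0 hκ₁0 ?_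
    intro h1 h2 p p1 p2 p3 p4 p5
    refine rkb hI hA hκ₁0 hFI HRK' ha ha1 haF hu (pos_le_one hu hu') huF
      (w := a * v') (hI.mulR _ haI _) hw hβF hβF2 (fun t i => (hC t i).1) hC1 huβ hd4 hd3 hδ hcert
      ?_ j h1 h2 p p1 p2 p3 p4 p5
    have : 0 < κ₁ ^ 9 := by positivity
    linarith
  choose P T' X Z Y hBD using hBD
  have hqsa : star (1 - g) = 1 - g := hg'.sa
  have hqn : ‖1 - g‖ ≤ 1 := by
    refine pos_le_one hg' ?_
    rw [sub_sub_cancel]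
    exact hg
  have hqq : Pos (1 - (1 - g) * (1 - g)) := by
    have h1 := pos_star_mul (1 - g)
    rw [hqsa] at h1
    exact pos_of_norm_le h1 ((norm_mul_le _ _).trans (mul_le_one₀ hqn (norm_nonneg _) hqn))
  have hs0 : 0 ≤ (κ₂ + d) / γ := by positivity
  have hs1 : ε₁⁻¹ * Real.sqrt ((κ₂ + d) / γ) ≤ R := by
    have h1 : (κ₂ + d) / γ ≤ (ε₁ * R) ^ 2 := by
      rw [div_le_iff₀ hγ0]
      have : κ₂ + d ≤ σ := by linarith
      rw [hσ] at this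
      linarith
    have h2 : Real.sqrt ((κ₂ + d) / γ) ≤ ε₁ * R := by
      refine (Real.sqrt_le_sqrt h1).trans ?_
      rw [Real.sqrt_sq (by positivity)]
    rw [inv_mul_le_iff₀ hε₁0]
    exact h2
  have hcol : ∀ i : Fin (m + 1), ∃ x z y : Fin 3 → B, (∀ t, ‖x t‖ ≤ 1 ∧ ‖z t‖ ≤ 1 ∧ ‖y t‖ ≤ 1 ∧
      z t * z t = 0 ∧ ‖(1 - g) * z t‖ ≤ ε₁⁻¹ * Real.sqrt ((κ₂ + d) / γ) ∧
      ‖z t * (1 - g)‖ ≤ ε₁⁻¹ * Real.sqrt ((κ₂ + d) / γ)) ∧
      ‖∑ t, x t * z t * y t - ∑ j ∈ Finset.univ.filter (fun j => c j = i), φ j (ψ j a)‖ ≤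
        κ₁ + γ + 6 * ε₁ := by
    intro i
    refine one_colour hDL hOZS (Finset.univ.filter fun j => c j = i) hφ ?_ hγ0 hκ₁0.le hBD hqsa
      hs0 hε₁0 ?_ (fun j => (hTpos j).sa)
    · intro j hj j' hj' hjj
      rw [Finset.mem_filter] at hj hj'
      exact hA.fam.orth j j' hjj (hj.2.trans hj'.2.symm)
    · exact P_bound hγ0 hd0.le ha (hA.app a haF) _ (fun j => (hBD j).PT) hφ hTpos hqsa hqq hg3
  choose x z y hxyz hsum using hcol
  -- the compressed triples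
  have hcmp : ∀ i t, ‖(g * z i t * g) * (g * z i t * g)‖ ≤ 2 * R ∧
      ‖(g * x i t * g) * (g * z i t * g) * (g * y i t * g) -
        g * (x i t * z i t * y i t) * g‖ ≤ 4 * R := by
    intro i t
    obtain ⟨h1, h2, h3, h4, h5, h6⟩ := hxyz i t
    exact compress hgn h1 h2 h3 (h5.trans hs1) (h6.trans hs1) h4
  have hgg : ∀ w : B, ‖w‖ ≤ 1 → ‖g * w * g‖ ≤ 1 := fun w hw =>
    (norm_mul_le _ _).trans (mul_le_one₀ ((norm_mul_le _ _).trans
      (mul_le_one₀ hgn (norm_nonneg _) hw)) (norm_nonneg _) hgn)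
  have hgf : ∀ w : B, ∃ b, g * w * g = a * b * a := fun w => by
    refine ⟨r * w * r, ?_⟩
    rw [hgdef]
    nth_rewrite 2 [har]
    simp only [mul_assoc]
  obtain ⟨E, -⟩ : ∃ E : Fin 3 × Fin (m + 1) ≃ Fin (3 * (m + 1)), E = finProdFinEquiv := ⟨_, rfl⟩
  refine ⟨fun s => g * x (E.symm s).2 (E.symm s).1 * g, fun s => g * z (E.symm s).2 (E.symm s).1 * g,
    fun s => g * y (E.symm s).2 (E.symm s).1 * g, ?_, ?_⟩
  · refine ⟨fun s => hgg _ (hxyz _ _).1, fun s => hgg _ (hxyz _ _).2.1,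
      fun s => hgg _ (hxyz _ _).2.2.1, fun s => ?_, fun s => hgf _, fun s => hgf _,
      fun s => hgf _⟩
    refine ((hcmp _ _).1).trans ?_
    rw [hR, mul_div_assoc', div_le_iff₀ (by positivity)]
    nlinarith
  · have e1 : ∑ s, g * x (E.symm s).2 (E.symm s).1 * g * (g * z (E.symm s).2 (E.symm s).1 * g) *
        (g * y (E.symm s).2 (E.symm s).1 * g) =
        ∑ i, ∑ t, (g * x i t * g) * (g * z i t * g) * (g * y i t * g) := by
      rw [Equiv.sum_comp E.symm (fun s : Fin 3 × Fin (m + 1) => g * x s.2 s.1 * g *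
        (g * z s.2 s.1 * g) * (g * y s.2 s.1 * g)), Fintype.sum_prod_type, Finset.sum_comm]
    rw [e1]
    -- the three errors
    have f1 : ‖a - g * a * g‖ ≤ 2 * κ₂ := by
      have : a - g * a * g = (1 - g) * a + g * (a * (1 - g)) := by noncomm_ring
      rw [this]
      refine (norm_add_le _ _).trans ?_
      have h3 : ‖g * (a * (1 - g))‖ ≤ κ₂ :=
        (norm_mul_le _ _).trans ((mul_le_of_le_one_left (norm_nonneg _) hgn).trans hg2)
      linarith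
    have f2 : ‖a - ∑ i, ∑ t, x i t * z i t * y i t‖ ≤ d + L * (κ₁ + γ + 6 * ε₁) := by
      have h1 : ∑ j, φ j (ψ j a) = ∑ i, ∑ j ∈ Finset.univ.filter (fun j => c j = i),
          φ j (ψ j a) := (Finset.sum_fiberwise _ _ _).symm
      have h2 : ‖∑ j, φ j (ψ j a) - a‖ ≤ d := by
        have := hA.app a haF
        rwa [tot, LinearMap.sum_apply] at this
      have h3 : a - ∑ i, ∑ t, x i t * z i t * y i t = -(∑ j, φ j (ψ j a) - a) -
          ∑ i, (∑ t, x i t * z i t * y i t -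
            ∑ j ∈ Finset.univ.filter (fun j => c j = i), φ j (ψ j a)) := by
        rw [Finset.sum_sub_distrib, ← h1]
        abel
      rw [h3]
      refine (norm_sub_le _ _).trans ?_
      rw [norm_neg]
      refine add_le_add h2 ((norm_sum_le _ _).trans ?_)
      refine (Finset.sum_le_sum fun i _ => hsum i).trans ?_
      rw [Finset.sum_const, Finset.card_univ, Fintype.card_fin, nsmul_eq_mul, hL]
      push_cast
      exact le_rfl
    have f3 : ‖g * (a - ∑ i, ∑ t, x i t * z i t * y i t) * g‖ ≤ d + L * (κ₁ + γ + 6 * ε₁) := by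
      refine (norm_mul_le _ _).trans ((mul_le_of_le_one_right (norm_nonneg _) hgn).trans ?_)
      exact (norm_mul_le _ _).trans ((mul_le_of_le_one_left (norm_nonneg _) hgn).trans f2)
    have f4 : ‖∑ i, ∑ t, ((g * x i t * g) * (g * z i t * g) * (g * y i t * g) -
        g * (x i t * z i t * y i t) * g)‖ ≤ L * (3 * (4 * R)) := by
      refine (norm_sum_le _ _).trans ?_
      have h1 : ∀ i : Fin (m + 1), ‖∑ t, ((g * x i t * g) * (g * z i t * g) * (g * y i t * g) -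
          g * (x i t * z i t * y i t) * g)‖ ≤ 3 * (4 * R) := by
        intro i
        refine (norm_sum_le _ _).trans ((Finset.sum_le_sum fun t _ => (hcmp i t).2).trans ?_)
        rw [Finset.sum_const, Finset.card_univ, Fintype.card_fin, nsmul_eq_mul]
        push_cast
        exact le_rfl
      refine (Finset.sum_le_sum fun i _ => h1 i).trans ?_
      rw [Finset.sum_const, Finset.card_univ, Fintype.card_fin, nsmul_eq_mul, hL]
      push_cast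
      exact le_rfl
    have f5 : a - ∑ i, ∑ t, (g * x i t * g) * (g * z i t * g) * (g * y i t * g) =
        (a - g * a * g) + g * (a - ∑ i, ∑ t, x i t * z i t * y i t) * g -
        ∑ i, ∑ t, ((g * x i t * g) * (g * z i t * g) * (g * y i t * g) -
        g * (x i t * z i t * y i t) * g) := by
      simp only [Finset.sum_sub_distrib]
      have h1 : ∑ i, ∑ t, g * (x i t * z i t * y i t) * g =
          g * (∑ i, ∑ t, x i t * z i t * y i t) * g := by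
        rw [Finset.mul_sum, Finset.sum_mul]
        refine Finset.sum_congr rfl fun i _ => ?_
        rw [Finset.mul_sum, Finset.sum_mul]
      rw [h1, mul_sub, sub_mul]
      abel
    rw [f5]
    refine (norm_sub_le _ _).trans ?_
    have f6 := norm_add_le (a - g * a * g) (g * (a - ∑ i, ∑ t, x i t * z i t * y i t) * g)
    have g1 : L * κ₁ = ε / 20 := by
      rw [hκ₁]
      field_simp
    have g2 : L * γ ≤ ε / 20 := by
      have := mul_le_mul_of_nonneg_left hγ2 hL0.le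
      refine this.trans (le_of_eq ?_)
      field_simp
    have g3 : L * ε₁ = ε / 100 := by
      rw [hε₁]
      field_simp
    have g4 : L * R = ε / 120 := by
      rw [hR]
      field_simp
    nlinarith

end Pool.Agent.N348.ND
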