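import Pool.Agent.N348.ND.Col

/-!
Good and bad blocks, and the sum over the blocks of one colour.
-/

set_option autoImplicit false

open scoped Topology Matrix.Norms.L2Operator

noncomputable section

namespace Pool.Agent.N348.ND

open Pool.Agent.N299 Pool.Agent.N299.ND

/-- the data in one block -/
structure BD {B : Type} [CStarAlgebra B] {n : ℕ} (T : M n) (φ : M n →ₗ[ℂ] B) (γ κ₁ : ℝ)
    (P T' : M n) (X Z Y : Fin 3 → M n) : Prop where
  nX : ∀ t, ‖X t‖ ≤ 1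
  nZ : ∀ t, ‖Z t‖ ≤ 1
  nY : ∀ t, ‖Y t‖ ≤ 1
  sq : ∀ t, Z t * Z t = 0
  pl : ∀ t, Pos (P - Z t * star (Z t))
  pr : ∀ t, Pos (P - star (Z t) * Z t)
  sum : ‖∑ t, X t * Z t * Y t - T'‖ ≤ γ
  PT : Pos (T - (γ : ℂ) • P)
  sa : star T' = T'
  bd : ‖φ (T - T')‖ ≤ κ₁

theorem exists_bd (hMAT : S_MAT) (hDL : S_DL) {B : Type} [CStarAlgebra B] {n : ℕ} {T : M n}
    {φ : M n →ₗ[ℂ] B} (hT : Pos T) (hT1 : ‖T‖ ≤ 1) (hφ : OZ φ) {γ κ₁ : ℝ} (hγ : 0 < γ)
    (hκ₁ : 0 < κ₁)
    (h : κ₁ < ‖φ 1‖ → κ₁ < ‖T‖ → ∀ p : M n, star p = p → p * p = p → p * T = T * p →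
      ‖T * (1 - p)‖ ≤ γ → (∀ x, ∃ c : ℂ, p * x * p = c • p) → False) :
    ∃ (P T' : M n) (X Z Y : Fin 3 → M n), BD T φ γ κ₁ P T' X Z Y := by
  by_cases hg : κ₁ < ‖φ 1‖ ∧ κ₁ < ‖T‖
  · obtain ⟨p, p1, p2, p3, p4, p5, p6⟩ := hMAT n T γ hγ hT
    rcases p6 with p6 | ⟨x, z, y, h1, h2⟩
    · exact (h hg.1 hg.2 p p1 p2 p3 p4 p6).elim
    · refine ⟨p, T, fun t => T * x t, z, y, ?_⟩
      refine ⟨fun t => ?_, fun t => (h1 t).2.1, fun t => (h1 t).2.2.1, fun t => (h1 t).2.2.2.1,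
        fun t => ?_, fun t => ?_, ?_, p5, hT.sa, ?_⟩
      · exact (norm_mul_le _ _).trans (mul_le_one₀ hT1 (norm_nonneg _) (h1 t).1)
      · obtain ⟨-, hz, -, -, q1, q2, -⟩ := h1 t
        have e1 : Pos (1 - z t * star (z t)) := by
          refine pos_of_norm_le ?_ ?_
          · have := pos_star_mul (star (z t))
            rwa [star_star] at this
          · refine (norm_mul_le _ _).trans ?_
            rw [norm_star]
            exact mul_le_one₀ hz (norm_nonneg _) hz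
        have e2 := e1.conj p
        have e3 : star p * (1 - z t * star (z t)) * p = p - z t * star (z t) := by
          rw [p1, mul_sub, sub_mul, mul_one, p2]
          have e4 : star (z t) * p = star (z t) := by
            have := congrArg star q1
            rwa [star_mul, p1] at this
          rw [← mul_assoc, q1, mul_assoc, e4]
        rwa [e3] at e2
      · obtain ⟨-, hz, -, -, q1, q2, -⟩ := h1 t
        have e1 : Pos (1 - star (z t) * z t) := by
          refine pos_of_norm_le (pos_star_mul _) ?_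
          refine (norm_mul_le _ _).trans ?_
          rw [norm_star]
          exact mul_le_one₀ hz (norm_nonneg _) hz
        have e2 := e1.conj p
        have e3 : star p * (1 - star (z t) * z t) * p = p - star (z t) * z t := by
          rw [p1, mul_sub, sub_mul, mul_one, p2]
          have e4 : p * star (z t) = star (z t) := by
            have := congrArg star q2
            rwa [star_mul, p1] at this
          rw [← mul_assoc, e4, mul_assoc, q2]
        rwa [e3] at e2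
      · have e1 : ∑ t, T * x t * z t * y t = T * p := by
          rw [← h2, Finset.mul_sum]
          refine Finset.sum_congr rfl fun t _ => ?_
          simp only [mul_assoc]
        rw [e1, ← norm_neg]
        have e2 : -(T * p - T) = T * (1 - p) := by
          rw [mul_sub, mul_one]
          abel
        rwa [e2]
      · rw [sub_self, map_zero, norm_zero]
        exact hκ₁.le
  · refine ⟨0, 0, fun _ => 0, fun _ => 0, fun _ => 0, ?_⟩
    refine ⟨fun t => ?_, fun t => ?_, fun t => ?_, fun t => mul_zero _, fun t => ?_, fun t => ?_,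
      ?_, ?_, star_zero _, ?_⟩
    · rw [norm_zero]
      exact zero_le_one
    · rw [norm_zero]
      exact zero_le_one
    · rw [norm_zero]
      exact zero_le_one
    · rw [zero_mul, sub_zero]
      exact pos_zero
    · rw [mul_zero, sub_zero]
      exact pos_zero
    · simp only [mul_zero, Finset.sum_const_zero, sub_zero, norm_zero]
      exact hγ.le
    · rwa [smul_zero, sub_zero]
    · rw [sub_zero]
      by_cases hT2 : κ₁ < ‖T‖
      · have h1 : ‖φ 1‖ ≤ κ₁ := by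
          by_contra h3
          exact hg ⟨not_le.1 h3, hT2⟩
        have h2 := ((hDL _ B φ hφ).1 1 T).1
        rw [one_mul, one_mul] at h2
        refine h2.trans ?_
        exact (mul_le_of_le_one_left (norm_nonneg _) hT1).trans h1
      · exact (hφ.norm T).trans (not_lt.1 hT2)

theorem norm_orth {B : Type} [CStarAlgebra B] {ι : Type} [DecidableEq ι] (S : Finset ι)
    (f : ι → B) {c : ℝ} (hc : 0 ≤ c) (hsa : ∀ j ∈ S, star (f j) = f j)
    (h0 : ∀ j ∈ S, ∀ j' ∈ S, j ≠ j' → f j * f j' = 0) (h : ∀ j ∈ S, ‖f j‖ ≤ c) :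
    ‖∑ j ∈ S, f j‖ ≤ c := by
  induction S using Finset.induction_on with
  | empty => simpa using hc
  | insert a s ha ih =>
    rw [Finset.sum_insert ha]
    have h1 : IsSelfAdjoint (f a) := hsa a (Finset.mem_insert_self a s)
    have h2 : IsSelfAdjoint (∑ j ∈ s, f j) := by
      change star (∑ j ∈ s, f j) = ∑ j ∈ s, f j
      rw [star_sum]
      exact Finset.sum_congr rfl fun j hj => hsa j (Finset.mem_insert_of_mem hj)
    have h3 : f a * ∑ j ∈ s, f j = 0 := by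
      rw [Finset.mul_sum]
      refine Finset.sum_eq_zero fun j hj => ?_
      refine h0 a (Finset.mem_insert_self a s) j (Finset.mem_insert_of_mem hj) ?_
      rintro rfl
      exact ha hj
    rw [h1.norm_add_eq_max h2 h3]
    refine max_le (h a (Finset.mem_insert_self a s)) ?_
    exact ih (fun j hj => hsa j (Finset.mem_insert_of_mem hj))
      (fun j hj j' hj' => h0 j (Finset.mem_insert_of_mem hj) j' (Finset.mem_insert_of_mem hj'))
      (fun j hj => h j (Finset.mem_insert_of_mem hj))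

theorem pos_pi {ι : Type} [Fintype ι] {R : ι → Type} [∀ i, CStarAlgebra (R i)] {x : ∀ i, R i}
    (h : ∀ i, Pos (x i)) : Pos x := by
  choose y hy using h
  exact ⟨y, funext hy⟩

theorem mrg_apply {B : Type} [CStarAlgebra B] {k : ℕ} {n : Fin k → ℕ}
    (φ : ∀ j, M (n j) →ₗ[ℂ] B) (S : Finset (Fin k)) (v : ∀ j, M (n j)) :
    mrg φ S (fun j : S => v j) = ∑ j ∈ S, φ j (v j) := by
  rw [mrg, LinearMap.sum_apply]
  rw [← Finset.sum_coe_sort S (fun j => φ j (v j))]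
  rfl

theorem one_colour (hDL : S_DL) (hOZS : S_OZS) {B : Type} [CStarAlgebra B] {k : ℕ}
    {n : Fin k → ℕ} {φ : ∀ j, M (n j) →ₗ[ℂ] B} (S : Finset (Fin k)) (hφ : ∀ j, OZ (φ j))
    (horth : ∀ j ∈ S, ∀ j' ∈ S, j ≠ j' → ∀ x y, φ j x * φ j' y = 0)
    {T P T' : ∀ j, M (n j)} {X Z Y : ∀ j, Fin 3 → M (n j)} {γ κ₁ : ℝ} (hγ : 0 < γ)
    (hκ₁ : 0 ≤ κ₁) (hBD : ∀ j, BD (T j) (φ j) γ κ₁ (P j) (T' j) (X j) (Z j) (Y j))
    {q : B} (hq : star q = q) {s ε₁ : ℝ} (hs : 0 ≤ s) (hε : 0 < ε₁)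
    (hP : Pos ((s : ℂ) • 1 - q * (∑ j ∈ S, φ j (P j)) * q)) (hTsa : ∀ j, star (T j) = T j) :
    ∃ x z y : Fin 3 → B, (∀ t, ‖x t‖ ≤ 1 ∧ ‖z t‖ ≤ 1 ∧ ‖y t‖ ≤ 1 ∧ z t * z t = 0 ∧
      ‖q * z t‖ ≤ ε₁⁻¹ * Real.sqrt s ∧ ‖z t * q‖ ≤ ε₁⁻¹ * Real.sqrt s) ∧
      ‖∑ t, x t * z t * y t - ∑ j ∈ S, φ j (T j)‖ ≤ κ₁ + γ + 6 * ε₁ := by
  have hΦ := hOZS k n B φ S (fun j _ => hφ j) horth
  have hP' : Pos ((s : ℂ) • 1 - q * mrg φ S (fun j : S => P j) * q) := by
    rwa [mrg_apply]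
  have hc : ∀ t, ∃ x z y : B, ‖x‖ ≤ 1 ∧ ‖z‖ ≤ 1 ∧ ‖y‖ ≤ 1 ∧ z * z = 0 ∧
      ‖q * z‖ ≤ ε₁⁻¹ * Real.sqrt s ∧ ‖z * q‖ ≤ ε₁⁻¹ * Real.sqrt s ∧
      ‖x * z * y - mrg φ S ((fun j : S => X j t) * (fun j : S => Z j t) *
        (fun j : S => Y j t))‖ ≤ 2 * ε₁ := by
    intro t
    refine colour hDL hΦ hq hε hs hP' ?_ ?_ ?_ ?_ ?_ ?_
    · exact (pi_norm_le_iff_of_nonneg zero_le_one).2 fun j => (hBD j).nX t
    · exact (pi_norm_le_iff_of_nonneg zero_le_one).2 fun j => (hBD j).nZ t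
    · exact (pi_norm_le_iff_of_nonneg zero_le_one).2 fun j => (hBD j).nY t
    · funext j
      exact (hBD j).sq t
    · exact pos_pi fun j => (hBD j).pl t
    · exact pos_pi fun j => (hBD j).pr t
  choose x z y h1 h2 h3 h4 h5 h6 h7 using hc
  refine ⟨x, z, y, fun t => ⟨h1 t, h2 t, h3 t, h4 t, h5 t, h6 t⟩, ?_⟩
  have e1 : ∀ t, mrg φ S ((fun j : S => X j t) * (fun j : S => Z j t) * (fun j : S => Y j t)) =
      ∑ j ∈ S, φ j (X j t * Z j t * Y j t) := fun t =>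
    mrg_apply φ S (fun j => X j t * Z j t * Y j t)
  -- the sum of the products
  have e2 : ‖∑ t, x t * z t * y t - ∑ t, ∑ j ∈ S, φ j (X j t * Z j t * Y j t)‖ ≤ 6 * ε₁ := by
    rw [← Finset.sum_sub_distrib]
    refine (norm_sum_le _ _).trans ?_
    calc ∑ t, ‖x t * z t * y t - ∑ j ∈ S, φ j (X j t * Z j t * Y j t)‖
        ≤ ∑ _t : Fin 3, 2 * ε₁ := Finset.sum_le_sum fun t _ => by
          rw [← e1]
          exact h7 t
      _ = 6 * ε₁ := by
          rw [Finset.sum_const, Finset.card_univ, Fintype.card_fin, nsmul_eq_mul]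
          push_cast
          ring
  have e3 : ‖∑ t, ∑ j ∈ S, φ j (X j t * Z j t * Y j t) - ∑ j ∈ S, φ j (T' j)‖ ≤ γ := by
    have f1 : ∑ t, ∑ j ∈ S, φ j (X j t * Z j t * Y j t) - ∑ j ∈ S, φ j (T' j) =
        mrg φ S (fun j : S => ∑ t, X j t * Z j t * Y j t - T' j) := by
      rw [mrg_apply φ S (fun j => ∑ t, X j t * Z j t * Y j t - T' j), Finset.sum_comm,
        ← Finset.sum_sub_distrib]
      refine Finset.sum_congr rfl fun j _ => ?_
      rw [map_sub, map_sum]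
    rw [f1]
    refine (hΦ.norm _).trans ?_
    exact (pi_norm_le_iff_of_nonneg hγ.le).2 fun j => (hBD j).sum
  have e4 : ‖∑ j ∈ S, φ j (T j) - ∑ j ∈ S, φ j (T' j)‖ ≤ κ₁ := by
    rw [← Finset.sum_sub_distrib]
    refine norm_orth S _ hκ₁ (fun j _ => ?_) (fun j hj j' hj' hjj => ?_) (fun j _ => ?_)
    · rw [← map_sub, ← (hφ j).st, star_sub, hTsa, (hBD j).sa]
    · rw [← map_sub, ← map_sub]
      exact horth j hj j' hj' hjj _ _
    · rw [← map_sub]
      exact (hBD j).bd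
  have e5 : ∑ t, x t * z t * y t - ∑ j ∈ S, φ j (T j) =
      (∑ t, x t * z t * y t - ∑ t, ∑ j ∈ S, φ j (X j t * Z j t * Y j t)) +
      (∑ t, ∑ j ∈ S, φ j (X j t * Z j t * Y j t) - ∑ j ∈ S, φ j (T' j)) -
      (∑ j ∈ S, φ j (T j) - ∑ j ∈ S, φ j (T' j)) := by abel
  rw [e5]
  refine (norm_sub_le _ _).trans ?_
  have e6 := norm_add_le (∑ t, x t * z t * y t - ∑ t, ∑ j ∈ S, φ j (X j t * Z j t * Y j t))
      (∑ t, ∑ j ∈ S, φ j (X j t * Z j t * Y j t) - ∑ j ∈ S, φ j (T' j))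
  linarith

end Pool.Agent.N348.ND
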