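import Pool.Agent.N348.ND.FC

/-!
One colour: order zero maps, and compression of triples.
-/

set_option autoImplicit false

open scoped Topology Matrix.Norms.L2Operator

noncomputable section

namespace Pool.Agent.N348.ND

open Pool.Agent.N299 Pool.Agent.N299.ND

theorem key {R B : Type} [CStarAlgebra R] [CStarAlgebra B] {Φ : R →ₗ[ℂ] B} (hΦ : OZ Φ)
    {q : B} (hq : star q = q) {P W : R} {s : ℝ}
    (hP : Pos ((s : ℂ) • 1 - q * Φ P * q)) (hW : Pos W) (hWP : Pos (P - W)) :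
    Pos ((s : ℂ) • 1 - q * (Φ 1 * Φ W) * q) := by
  have h1 : Pos (q * Φ (P - W) * q) := by
    have := (hΦ.pos _ hWP).conj q
    rwa [hq] at this
  have h2 : Pos ((1 - Φ 1) * Φ W) := by
    let _ : PartialOrder B := CStarAlgebra.spectralOrder B
    let _ : StarOrderedRing B := CStarAlgebra.spectralOrderedRing B
    have h3 := (pos_iff _).1 hΦ.le
    have h4 := (pos_iff _).1 (hΦ.pos _ hW)
    rw [pos_iff]
    refine Commute.mul_nonneg h3 h4 ?_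
    change (1 - Φ 1) * Φ W = Φ W * (1 - Φ 1)
    rw [sub_mul, mul_sub, one_mul, mul_one, hΦ.comm]
  have h3 : Pos (q * ((1 - Φ 1) * Φ W) * q) := by
    have := h2.conj q
    rwa [hq] at this
  have h4 := (hP.add h1).add h3
  have h5 : (s : ℂ) • 1 - q * Φ P * q + q * Φ (P - W) * q + q * ((1 - Φ 1) * Φ W) * q =
      (s : ℂ) • 1 - q * (Φ 1 * Φ W) * q := by
    rw [map_sub]
    simp only [sub_mul, mul_sub, one_mul]
    abel
  rwa [h5] at h4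

theorem keyL {R B : Type} [CStarAlgebra R] [CStarAlgebra B] {Φ : R →ₗ[ℂ] B} (hΦ : OZ Φ)
    {q : B} (hq : star q = q) {P Z : R} {s : ℝ} (hs : 0 ≤ s)
    (hP : Pos ((s : ℂ) • 1 - q * Φ P * q)) (hWP : Pos (P - Z * star Z)) :
    ‖q * Φ Z‖ ≤ Real.sqrt s := by
  refine Real.le_sqrt_of_sq_le ?_
  have h1 : Pos (Z * star Z) := by
    have := pos_star_mul (star Z)
    rwa [star_star] at this
  have h2 := key hΦ hq hP h1 hWP
  rw [← norm_star]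
  refine norm_sq_le' hs ?_
  have h3 : star (star (q * Φ Z)) * star (q * Φ Z) = q * (Φ 1 * Φ (Z * star Z)) * q := by
    rw [star_star, star_mul, hq, ← hΦ.mul, hΦ.st]
    simp only [mul_assoc]
  rwa [h3]

theorem keyR {R B : Type} [CStarAlgebra R] [CStarAlgebra B] {Φ : R →ₗ[ℂ] B} (hΦ : OZ Φ)
    {q : B} (hq : star q = q) {P Z : R} {s : ℝ} (hs : 0 ≤ s)
    (hP : Pos ((s : ℂ) • 1 - q * Φ P * q)) (hWP : Pos (P - star Z * Z)) :
    ‖Φ Z * q‖ ≤ Real.sqrt s := by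
  refine Real.le_sqrt_of_sq_le ?_
  have h2 := key hΦ hq hP (pos_star_mul Z) hWP
  refine norm_sq_le' hs ?_
  have h3 : star (Φ Z * q) * (Φ Z * q) = q * (Φ 1 * Φ (star Z * Z)) * q := by
    rw [star_mul, hq, ← hΦ.mul, hΦ.st]
    simp only [mul_assoc]
  rwa [h3]

theorem colour (hDL : S_DL) {R B : Type} [CStarAlgebra R] [CStarAlgebra B] {Φ : R →ₗ[ℂ] B}
    (hΦ : OZ Φ) {q : B} (hq : star q = q) {P : R} {s ε₁ : ℝ} (hε : 0 < ε₁) (hs : 0 ≤ s)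
    (hP : Pos ((s : ℂ) • 1 - q * Φ P * q)) {X Z Y : R} (hX : ‖X‖ ≤ 1) (hZ : ‖Z‖ ≤ 1)
    (hY : ‖Y‖ ≤ 1) (hZZ : Z * Z = 0) (h1 : Pos (P - Z * star Z)) (h2 : Pos (P - star Z * Z)) :
    ∃ x z y : B, ‖x‖ ≤ 1 ∧ ‖z‖ ≤ 1 ∧ ‖y‖ ≤ 1 ∧ z * z = 0 ∧ ‖q * z‖ ≤ ε₁⁻¹ * Real.sqrt s ∧
      ‖z * q‖ ≤ ε₁⁻¹ * Real.sqrt s ∧ ‖x * z * y - Φ (X * Z * Y)‖ ≤ 2 * ε₁ := by
  obtain ⟨z, y, hz, hy, e1, e2, -, h3, h4, h5⟩ := (hDL R B Φ hΦ).2.2 ε₁ X Z Y hε hX hZ hY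
  refine ⟨Φ X, z, y, (hΦ.norm X).trans hX, hz, hy, h3 hZZ, ?_, ?_, h4⟩
  · rw [e2, ← mul_assoc]
    refine (norm_mul_le _ _).trans ?_
    rw [mul_comm]
    exact mul_le_mul h5 (keyL hΦ hq hs hP h1) (norm_nonneg _) (by positivity)
  · rw [e1, mul_assoc]
    refine (norm_mul_le _ _).trans ?_
    exact mul_le_mul h5 (keyR hΦ hq hs hP h2) (norm_nonneg _) (by positivity)

/-- compression of a triple -/
theorem compress {B : Type} [CStarAlgebra B] {g : B} (hg : ‖g‖ ≤ 1) {x z y : B} (hx : ‖x‖ ≤ 1)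
    (hz : ‖z‖ ≤ 1) (hy : ‖y‖ ≤ 1) {ρ : ℝ} (h1 : ‖(1 - g) * z‖ ≤ ρ) (h2 : ‖z * (1 - g)‖ ≤ ρ)
    (hzz : z * z = 0) :
    ‖(g * z * g) * (g * z * g)‖ ≤ 2 * ρ ∧
    ‖(g * x * g) * (g * z * g) * (g * y * g) - g * (x * z * y) * g‖ ≤ 4 * ρ := by
  have n0 : ∀ w : B, ‖w‖ ≤ 1 → ∀ v : B, ‖v‖ ≤ 1 → ‖w * v‖ ≤ 1 := fun w hw v hv =>
    (norm_mul_le _ _).trans (mul_le_one₀ hw (norm_nonneg _) hv)
  have n1 : ∀ (w v : B) (c : ℝ), ‖w‖ ≤ 1 → ‖v‖ ≤ c → ‖w * v‖ ≤ c := fun w v c hw hv =>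
    (norm_mul_le _ _).trans ((mul_le_of_le_one_left (norm_nonneg _) hw).trans hv)
  have n2 : ∀ (w v : B) (c : ℝ), ‖w‖ ≤ c → ‖v‖ ≤ 1 → ‖w * v‖ ≤ c := fun w v c hw hv =>
    (norm_mul_le _ _).trans ((mul_le_of_le_one_right (norm_nonneg _) hv).trans hw)
  constructor
  · have e1 : (g * z * g) * (g * z * g) =
        -(g * ((z * (1 - g)) * (g * z * g))) - g * ((z * ((1 - g) * z)) * g) +
          g * (z * z) * g := by
      noncomm_ring
    rw [e1, hzz, mul_zero, zero_mul, add_zero]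
    have a1 : ‖g * ((z * (1 - g)) * (g * z * g))‖ ≤ ρ :=
      n1 _ _ _ hg (n2 _ _ _ h2 (n0 _ (n0 _ hg _ hz) _ hg))
    have a2 : ‖g * ((z * ((1 - g) * z)) * g)‖ ≤ ρ :=
      n1 _ _ _ hg (n2 _ _ _ (n1 _ _ _ hz h1) hg)
    calc ‖-(g * ((z * (1 - g)) * (g * z * g))) - g * ((z * ((1 - g) * z)) * g)‖
        ≤ ‖-(g * ((z * (1 - g)) * (g * z * g)))‖ + ‖g * ((z * ((1 - g) * z)) * g)‖ :=
          norm_sub_le _ _
      _ ≤ 2 * ρ := by
          rw [norm_neg]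
          linarith
  · have e1 : (g * x * g) * (g * z * g) * (g * y * g) - g * (x * z * y) * g =
        -((g * x * g) * ((g * z * (1 - g)) * (g * y * g)))
        - (g * x * g) * (((1 - g) * z) * (g * y * g))
        - (g * x) * (((1 - g) * z) * (g * y * g))
        - (g * x) * ((z * (1 - g)) * (y * g)) +
        ((g * x * g) * (g * z * g) * (g * y * g)
         + (g * x * g) * ((g * z * (1 - g)) * (g * y * g))
         + (g * x * g) * (((1 - g) * z) * (g * y * g))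
         + (g * x) * (((1 - g) * z) * (g * y * g))
         + (g * x) * ((z * (1 - g)) * (y * g)) - g * (x * z * y) * g) := by
      abel
    have e2 : ((g * x * g) * (g * z * g) * (g * y * g)
         + (g * x * g) * ((g * z * (1 - g)) * (g * y * g))
         + (g * x * g) * (((1 - g) * z) * (g * y * g))
         + (g * x) * (((1 - g) * z) * (g * y * g))
         + (g * x) * ((z * (1 - g)) * (y * g)) - g * (x * z * y) * g) = 0 := by
      noncomm_ring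
    rw [e1, e2, add_zero]
    have a1 : ‖(g * x * g) * ((g * z * (1 - g)) * (g * y * g))‖ ≤ ρ := by
      refine n1 _ _ _ (n0 _ (n0 _ hg _ hx) _ hg) (n2 _ _ _ ?_ (n0 _ (n0 _ hg _ hy) _ hg))
      rw [mul_assoc]
      exact n1 _ _ _ hg h2
    have a2 : ‖(g * x * g) * (((1 - g) * z) * (g * y * g))‖ ≤ ρ :=
      n1 _ _ _ (n0 _ (n0 _ hg _ hx) _ hg) (n2 _ _ _ h1 (n0 _ (n0 _ hg _ hy) _ hg))
    have a3 : ‖(g * x) * (((1 - g) * z) * (g * y * g))‖ ≤ ρ :=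
      n1 _ _ _ (n0 _ hg _ hx) (n2 _ _ _ h1 (n0 _ (n0 _ hg _ hy) _ hg))
    have a4 : ‖(g * x) * ((z * (1 - g)) * (y * g))‖ ≤ ρ :=
      n1 _ _ _ (n0 _ hg _ hx) (n2 _ _ _ h2 (n0 _ hy _ hg))
    refine (norm_sub_le _ _).trans ?_
    refine (add_le_add_left (norm_sub_le _ _) _).trans ?_
    refine (add_le_add_left (add_le_add_left (norm_sub_le _ _) _) _).trans ?_
    rw [norm_neg]
    linarith

end Pool.Agent.N348.ND
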