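import Pool.Agent.N299.ND.Stm

/-!
Functional calculus for UWD.
-/

set_option autoImplicit false

open scoped Topology Matrix.Norms.L2Operator

noncomputable section

namespace Pool.Agent.N348.ND

open Pool.Agent.N299 Pool.Agent.N299.ND

section

variable {B : Type} [CStarAlgebra B]

theorem cont_inv {κ : ℝ} (hκ : 0 < κ) : Continuous (fun t : ℝ => (|t| + κ)⁻¹) :=
  Continuous.inv₀ (by fun_prop) fun t => by positivity

/-- the elements `a (a + κ)⁻¹` -/
theorem fc {a : B} (ha : Pos a) {κ : ℝ} (hκ : 0 < κ) :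
    ∃ r v : B, star r = r ∧ a * r = r * a ∧ Pos (a * r) ∧ Pos (1 - a * r) ∧
      ‖(1 - a * r) * a‖ ≤ κ ∧ ‖a * (1 - a * r)‖ ≤ κ ∧
      Pos ((κ : ℂ) • 1 - (1 - a * r) * a * (1 - a * r)) ∧
      a - (κ : ℂ) • (a * r) = star (a * v) * (a * v) := by
  let _ : PartialOrder B := CStarAlgebra.spectralOrder B
  let _ : StarOrderedRing B := CStarAlgebra.spectralOrderedRing B
  have hsa : IsSelfAdjoint a := ha.sa
  have ha0 : 0 ≤ a := (pos_iff a).1 ha
  have hsp : ∀ t ∈ spectrum ℝ a, 0 ≤ t := fun t ht => spectrum_nonneg_of_nonneg ha0 ht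
  have hc := cont_inv hκ
  have hs : Continuous (fun t : ℝ => (Real.sqrt (|t| + κ))⁻¹) :=
    Continuous.inv₀ (by fun_prop) fun t => (Real.sqrt_pos.2 (by positivity)).ne'
  have hm : Continuous (fun t : ℝ => t * (|t| + κ)⁻¹) := by fun_prop
  have hm1 : Continuous (fun t : ℝ => 1 - t * (|t| + κ)⁻¹) := by fun_prop
  have e1 : a * cfc (fun t : ℝ => (|t| + κ)⁻¹) a = cfc (fun t : ℝ => t * (|t| + κ)⁻¹) a := by
    nth_rewrite 1 [← cfc_id' ℝ a]
    rw [← cfc_mul (R := ℝ) _ _ a (by fun_prop) hc.continuousOn]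
  have e2 : cfc (fun t : ℝ => (|t| + κ)⁻¹) a * a = cfc (fun t : ℝ => t * (|t| + κ)⁻¹) a := by
    nth_rewrite 2 [← cfc_id' ℝ a]
    rw [← cfc_mul (R := ℝ) _ _ a hc.continuousOn (by fun_prop)]
    refine cfc_congr fun t _ => ?_
    exact mul_comm _ _
  have e3 : 1 - a * cfc (fun t : ℝ => (|t| + κ)⁻¹) a =
      cfc (fun t : ℝ => 1 - t * (|t| + κ)⁻¹) a := by
    rw [e1, cfc_sub (R := ℝ) _ _ a (by fun_prop) hm.continuousOn, cfc_const_one ℝ a]
  have e4 : (1 - a * cfc (fun t : ℝ => (|t| + κ)⁻¹) a) * a =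
      cfc (fun t : ℝ => (1 - t * (|t| + κ)⁻¹) * t) a := by
    rw [e3]
    nth_rewrite 2 [← cfc_id' ℝ a]
    rw [← cfc_mul (R := ℝ) _ _ a hm1.continuousOn (by fun_prop)]
  have e5 : a * (1 - a * cfc (fun t : ℝ => (|t| + κ)⁻¹) a) =
      cfc (fun t : ℝ => t * (1 - t * (|t| + κ)⁻¹)) a := by
    rw [e3]
    nth_rewrite 1 [← cfc_id' ℝ a]
    rw [← cfc_mul (R := ℝ) _ _ a (by fun_prop) hm1.continuousOn]
  have b1 : ∀ t : ℝ, 0 ≤ t → 1 - t * (|t| + κ)⁻¹ = κ / (t + κ) := by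
    intro t ht
    rw [abs_of_nonneg ht]
    field_simp
    ring
  have b2 : ∀ t : ℝ, 0 ≤ t → κ / (t + κ) * t ≤ κ := by
    intro t ht
    rw [div_mul_eq_mul_div, div_le_iff₀ (by positivity)]
    nlinarith
  refine ⟨cfc (fun t : ℝ => (|t| + κ)⁻¹) a, cfc (fun t : ℝ => (Real.sqrt (|t| + κ))⁻¹) a,
    cfc_sa _ _, by rw [e1, e2], ?_, ?_, ?_, ?_, ?_, ?_⟩
  · rw [e1, pos_iff]
    refine cfc_nonneg fun t ht => ?_
    have := hsp t ht
    positivity
  · rw [e3, pos_iff]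
    refine cfc_nonneg fun t ht => ?_
    have h0 := hsp t ht
    rw [b1 t h0]
    positivity
  · rw [e4]
    refine norm_cfc_le hκ.le fun t ht => ?_
    have h0 := hsp t ht
    rw [b1 t h0, Real.norm_eq_abs, abs_of_nonneg (by positivity)]
    exact b2 t h0
  · rw [e5]
    refine norm_cfc_le hκ.le fun t ht => ?_
    have h0 := hsp t ht
    rw [b1 t h0, Real.norm_eq_abs, abs_of_nonneg (by positivity), mul_comm]
    exact b2 t h0
  · have e6 : (κ : ℂ) • 1 - (1 - a * cfc (fun t : ℝ => (|t| + κ)⁻¹) a) * a *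
        (1 - a * cfc (fun t : ℝ => (|t| + κ)⁻¹) a) =
        cfc (fun t : ℝ => κ - (1 - t * (|t| + κ)⁻¹) * t * (1 - t * (|t| + κ)⁻¹)) a := by
      rw [e4, e3, cfc_sub (R := ℝ) (fun _ => κ)
        (fun t : ℝ => (1 - t * (|t| + κ)⁻¹) * t * (1 - t * (|t| + κ)⁻¹)) a (by fun_prop)
        (by fun_prop), cfc_mul (R := ℝ) (fun t : ℝ => (1 - t * (|t| + κ)⁻¹) * t)
        (fun t : ℝ => 1 - t * (|t| + κ)⁻¹) a (by fun_prop) (by fun_prop), cfc_const κ a,
        real_smul_eq, Algebra.algebraMap_eq_smul_one]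
    rw [e6, pos_iff]
    refine cfc_nonneg fun t ht => ?_
    have h0 := hsp t ht
    rw [b1 t h0]
    have h1 := b2 t h0
    have h2 : κ / (t + κ) ≤ 1 := by
      rw [div_le_one (by positivity)]
      linarith
    have h3 : 0 ≤ κ / (t + κ) * t := by positivity
    have h4 : 0 ≤ κ / (t + κ) := by positivity
    nlinarith
  · have e6 : a * cfc (fun t : ℝ => (Real.sqrt (|t| + κ))⁻¹) a =
        cfc (fun t : ℝ => t * (Real.sqrt (|t| + κ))⁻¹) a := by
      nth_rewrite 1 [← cfc_id' ℝ a]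
      rw [← cfc_mul (R := ℝ) _ _ a (by fun_prop) hs.continuousOn]
    have e7 : a - (κ : ℂ) • (a * cfc (fun t : ℝ => (|t| + κ)⁻¹) a) =
        cfc (fun t : ℝ => t - κ * (t * (|t| + κ)⁻¹)) a := by
      rw [e1, cfc_sub (R := ℝ) _ _ a (by fun_prop) (by fun_prop),
        cfc_const_mul (R := ℝ) _ _ a (by fun_prop), cfc_id' ℝ a, real_smul_eq]
    rw [e7, e6, cfc_sa, ← cfc_mul (R := ℝ) _ _ a (by fun_prop) (by fun_prop)]
    refine cfc_congr fun t ht => ?_
    have h0 := hsp t ht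
    have h1 : Real.sqrt (t + κ) * Real.sqrt (t + κ) = t + κ := Real.mul_self_sqrt (by positivity)
    have h2 : Real.sqrt (t + κ) ≠ 0 := (Real.sqrt_pos.2 (by positivity)).ne'
    rw [abs_of_nonneg h0]
    have h3 : t * (Real.sqrt (t + κ))⁻¹ * (t * (Real.sqrt (t + κ))⁻¹) = t * t * (t + κ)⁻¹ := by
      nth_rewrite 3 [← h1]
      rw [mul_inv]
      ring
    rw [h3]
    field_simp
    ring

/-- square roots in closed ideals -/
theorem sqrt_mem {I : Submodule ℂ B} (hI : Idl I) {a : B} (ha : Pos a) (haI : a ∈ I) :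
    ∃ y ∈ I, a = star y * y := by
  let _ : PartialOrder B := CStarAlgebra.spectralOrder B
  let _ : StarOrderedRing B := CStarAlgebra.spectralOrderedRing B
  have hsa : IsSelfAdjoint a := ha.sa
  have ha0 : 0 ≤ a := (pos_iff a).1 ha
  have hsp : ∀ t ∈ spectrum ℝ a, 0 ≤ t := fun t ht => spectrum_nonneg_of_nonneg ha0 ht
  refine ⟨cfc (fun t : ℝ => Real.sqrt t) a, ?_, ?_⟩
  · rw [← SetLike.mem_coe, ← hI.closed.closure_eq, Metric.mem_closure_iff]
    intro ε hε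
    have hs : 0 < (ε / 2) ^ 2 := by positivity
    have hc := cont_inv hs
    have hc2 : Continuous (fun t : ℝ => Real.sqrt t * (|t| + (ε / 2) ^ 2)⁻¹) := by fun_prop
    refine ⟨a * cfc (fun t : ℝ => Real.sqrt t * (|t| + (ε / 2) ^ 2)⁻¹) a,
      hI.mulR _ haI _, ?_⟩
    have e1 : a * cfc (fun t : ℝ => Real.sqrt t * (|t| + (ε / 2) ^ 2)⁻¹) a =
        cfc (fun t : ℝ => t * (Real.sqrt t * (|t| + (ε / 2) ^ 2)⁻¹)) a := by
      nth_rewrite 1 [← cfc_id' ℝ a]
      rw [← cfc_mul (R := ℝ) _ _ a (by fun_prop) hc2.continuousOn]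
    rw [dist_eq_norm, e1, ← cfc_sub (R := ℝ) _ _ a (by fun_prop) (by fun_prop)]
    refine lt_of_le_of_lt (norm_cfc_le (c := ε / 2) (by positivity) fun t ht => ?_)
      (by linarith)
    have h0 := hsp t ht
    rw [abs_of_nonneg h0]
    have h1 : Real.sqrt t - t * (Real.sqrt t * (t + (ε / 2) ^ 2)⁻¹) =
        Real.sqrt t * (ε / 2) ^ 2 / (t + (ε / 2) ^ 2) := by
      field_simp
      ring
    rw [h1, Real.norm_eq_abs, abs_of_nonneg (by positivity), div_le_iff₀ (by positivity)]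
    have h2 : Real.sqrt t * Real.sqrt t = t := Real.mul_self_sqrt h0
    have h3 : 0 ≤ Real.sqrt t := Real.sqrt_nonneg t
    have h4 : Real.sqrt t * (ε / 2) ≤ t + (ε / 2) ^ 2 := by
      nlinarith [sq_nonneg (Real.sqrt t - ε / 2)]
    have h5 : 0 < ε / 2 := by positivity
    nlinarith [mul_le_mul_of_nonneg_left h4 h5.le]
  · rw [cfc_sa, ← cfc_mul (R := ℝ) _ _ a (by fun_prop) (by fun_prop)]
    nth_rewrite 1 [← cfc_id' ℝ a]
    refine cfc_congr fun t ht => ?_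
    exact (Real.mul_self_sqrt (hsp t ht)).symm

theorem cpi_pos {R : Type} [CStarAlgebra R] {I : Submodule ℂ B} {ψ : B →ₗ[ℂ] R}
    (hψ : CPI I ψ) {y : B} (hy : y ∈ I) : Pos (ψ (star y * y)) := by
  have h := hψ 1 (fun _ => y) (fun _ => 1) (fun _ => hy)
  simpa using h

theorem blk_pos {I : Submodule ℂ B} (hI : Idl I) {R : Type} [CStarAlgebra R] {ψ : B →ₗ[ℂ] R}
    (hψ : CPI I ψ) {x : B} (hx : x ∈ I) (h : Pos x) : Pos (ψ x) := by
  obtain ⟨y, hy, rfl⟩ := sqrt_mem hI h hx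
  exact cpi_pos hψ hy

theorem norm_one_le' : ‖(1 : B)‖ ≤ 1 := by
  rcases subsingleton_or_nontrivial B with h | h
  · have : (1 : B) = 0 := Subsingleton.elim _ _
    rw [this, norm_zero]
    exact zero_le_one
  · exact (CStarRing.norm_one).le

/-- `0 ≤ x ≤ s` implies `‖x‖ ≤ s`, for `x = z* z` -/
theorem norm_sq_le' {z : B} {s : ℝ} (hs : 0 ≤ s) (h : Pos ((s : ℂ) • 1 - star z * z)) :
    ‖z‖ ^ 2 ≤ s := by
  have h1 : Pos ((s : ℂ) • (star (1 : B) * 1) - star z * z) := by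
    rwa [star_one, one_mul]
  have h2 := norm_sq_le_of_pos hs h1
  have h3 : ‖(1 : B)‖ ^ 2 ≤ 1 := pow_le_one₀ (norm_nonneg _) norm_one_le'
  nlinarith

theorem pos_le_one {x : B} (h : Pos x) (h1 : Pos (1 - x)) : ‖x‖ ≤ 1 := by
  let _ : PartialOrder B := CStarAlgebra.spectralOrder B
  let _ : StarOrderedRing B := CStarAlgebra.spectralOrderedRing B
  rw [pos_iff] at h h1
  rw [sub_nonneg] at h1
  exact (CStarAlgebra.norm_le_norm_of_nonneg_of_le h h1).trans norm_one_le'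

theorem pos_of_norm_le {x : B} (h : Pos x) (h1 : ‖x‖ ≤ 1) : Pos (1 - x) := by
  have h2 := pos_perturb (x := 0) (y := -x) (δ := 1) pos_zero (by rw [star_neg, h.sa])
    (by simpa using h1)
  have h3 : -x + ((1 : ℝ) : ℂ) • (1 : B) = 1 - x := by
    rw [Complex.ofReal_one, one_smul]
    abel
  rwa [h3] at h2

end

end Pool.Agent.N348.ND
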